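import Pool.Agent.U924.Par.Sol

/-!
# A non-elementary piecewise constant cocycle of parabolic type over a rotation

MP_a48a54_an, Q1. The interval exchange is an irrational (Liouville) rotation `x ↦ x + α`, viewed
as an exchange of four intervals; the cocycle takes the values `(-1, 0; -1, -1)` on `[0, β)`,
`(1, 1; 0, 1)` on `[β, 1/2)` and `(1, -1; 0, 1)` on `[1/2, 1)`.
-/

open MeasureTheory Set Matrix

namespace Pool.Agent.Results.MP_a48a54_an.ParabolicRotation

open Q66.Iet

/-- the rotation of `[0,1)` by `α`, as an interval exchange -/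
noncomputable def T (α x : ℝ) : ℝ := if x < 1 - α then x + α else x - (1 - α)

/-- the values of the cocycle on `[0, β)`, `[β, 1 - α)`, `[1 - α, 1/2)`, `[1/2, 1)` -/
noncomputable def M : Fin 4 → SL2 :=
  ![⟨!![-1, 0; -1, -1], by rw [Matrix.det_fin_two_of]; norm_num⟩,
    ⟨!![1, 1; 0, 1], by rw [Matrix.det_fin_two_of]; norm_num⟩,
    ⟨!![1, 1; 0, 1], by rw [Matrix.det_fin_two_of]; norm_num⟩,
    ⟨!![1, -1; 0, 1], by rw [Matrix.det_fin_two_of]; norm_num⟩]

/-- the piecewise constant cocycle -/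
noncomputable def ρ (β x : ℝ) : SL2 := if x < β then M 0 else if x < 1 / 2 then M 1 else M 3

/-- There are an irrational `α` and a `β` for which the rotation `T` by `α` is an ergodic interval
exchange, the values of `ρ` generate a Zariski dense subgroup of `SL(2,ℝ)`, and `(T, ρ)` is of
parabolic type and not of elliptic type. -/
theorem result :
    ∃ α β : ℝ, Irrational α ∧ 0 < β ∧ β < 1 - α ∧ 1 - α < 1 / 2 ∧
      IsIET 4 ![0, β, 1 - α, 1 / 2, 1] (T α) ∧ Ergodic (T α) μ ∧
      IsPiecewise ![0, β, 1 - α, 1 / 2, 1] M (ρ β) ∧ NonElementary M ∧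
      ParabolicType (T α) (ρ β) ∧ ¬ EllipticType (T α) (ρ β) := by
  obtain ⟨α, β, hα0, hα1, hβ0, hβ1, hirr, hp, hne⟩ := Pool.Agent.U924.Par.exists_example
  have hM0 : M 0 = P3 * L1 := by
    apply Subtype.ext
    rw [Pool.Agent.U924.Par.coe_P3L1]
    rfl
  have hM1 : M 1 = L1 := rfl
  have hM3 : M 3 = L1⁻¹ := by
    apply Subtype.ext
    rw [Pool.Agent.U924.Par.coe_L1_inv]
    rfl
  have hρ : ρ β = Pool.Agent.U924.Par.rho β := by
    ext1 x
    unfold ρ Pool.Agent.U924.Par.rho
    rw [hM0, hM1, hM3]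
  have hT : T α = rotI α := rfl
  refine ⟨α, β, hirr, hβ0, by linarith, by linarith,
    Pool.Agent.U924.Par.rotI_isIET4 hα0 hα1 hβ0 hβ1,
    Pool.Agent.U924.Par.rotI_ergodic (by linarith) (by linarith) hirr, ?_, ?_, ?_, ?_⟩
  · intro j x hx
    fin_cases j
    · have h1 : x < β := hx.2
      show ρ β x = M 0
      unfold ρ; rw [if_pos h1]
    · have h1 : β ≤ x := hx.1
      have h2 : x < 1 - α := hx.2
      show ρ β x = M 1
      unfold ρ; rw [if_neg (not_lt.2 h1), if_pos (by linarith)]
    · have h1 : 1 - α ≤ x := hx.1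
      have h2 : x < 1 / 2 := hx.2
      show ρ β x = M 1
      unfold ρ; rw [if_neg (by linarith), if_pos h2]
    · have h1 : 1 / 2 ≤ x := hx.1
      show ρ β x = M 3
      unfold ρ; rw [if_neg (by linarith), if_neg (not_lt.2 h1)]
  · have h0 : P3 * L1 ∈ Subgroup.closure (range M) := by
      rw [← hM0]; exact Subgroup.subset_closure ⟨0, rfl⟩
    have h1 : L1 ∈ Subgroup.closure (range M) := by
      rw [← hM1]; exact Subgroup.subset_closure ⟨1, rfl⟩
    have hP : P3 ∈ Subgroup.closure (range M) := by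
      have : P3 = (P3 * L1) * L1⁻¹ := by group
      rw [this]
      exact mul_mem h0 (inv_mem h1)
    refine sl2z_dense h1 ?_
    have : J4 = P3⁻¹ * L1 := by rw [← P3_J4]; group
    rw [this]
    exact mul_mem (inv_mem hP) h1
  · rw [hT, hρ]; exact hp
  · rw [hT, hρ]; exact hne

end Pool.Agent.Results.MP_a48a54_an.ParabolicRotation
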